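import Pool.Agent.Helper428.BrownStep

set_option autoImplicit false

open Polynomial

namespace Pool.Agent.Results.MP_1e1ce6_co.BrownRealPart

universe u

/-- `p` is the chromatic polynomial of `G`: for every positive integer `q` the value `p(q)` is the
number of proper colourings of the vertices of `G` with at most `q` colours. -/
def IsChromaticPolynomial {V : Type u} (G : SimpleGraph V) (p : ℤ[X]) : Prop :=
  ∀ q : ℕ, 0 < q → p.eval (q : ℤ) = Nat.card (G.Coloring (Fin q))

/-- `z` is a chromatic root of `G`: a complex zero of the chromatic polynomial of `G`. -/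
def IsChromaticRoot {V : Type u} (G : SimpleGraph V) (z : ℂ) : Prop :=
  ∃ p : ℤ[X], IsChromaticPolynomial G p ∧ aeval z p = 0

open Pool.Agent.Helper428.Brown

lemma cnt_univ {V : Type u} [Fintype V] [DecidableEq V] (G : SimpleGraph V) (q : ℕ) :
    cnt G Finset.univ q = Nat.card (G.Coloring (Fin q)) := by
  unfold cnt
  apply Nat.card_congr
  exact
    { toFun := fun f => SimpleGraph.Coloring.mk (fun v => f.1 ⟨v, Finset.mem_univ v⟩)
        (fun {a b} h => f.2 ⟨a, Finset.mem_univ a⟩ ⟨b, Finset.mem_univ b⟩ h)
      invFun := fun c => ⟨fun v => c v.1, fun a b h => c.valid h⟩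
      left_inv := fun f => rfl
      right_inv := fun c => rfl }

lemma isChromaticPolynomial_pol {V : Type u} [Fintype V] [DecidableEq V] (G : SimpleGraph V) :
    IsChromaticPolynomial G (pol G Finset.univ) := by
  intro q _
  rw [pol_eval, cnt_univ]

lemma unique_pol {V : Type u} {G : SimpleGraph V} {p p' : ℤ[X]}
    (h : IsChromaticPolynomial G p) (h' : IsChromaticPolynomial G p') : p = p' :=
  pol_ext fun q hq => (h q hq).trans (h' q hq).symm

lemma isChromaticPolynomial_top {V : Type u} [Fintype V] :
    IsChromaticPolynomial (⊤ : SimpleGraph V) (descPochhammer ℤ (Fintype.card V)) := by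
  intro q _
  rw [descPochhammer_eval_eq_descFactorial]
  have e : (⊤ : SimpleGraph V).Coloring (Fin q) ≃ (V ↪ Fin q) :=
    { toFun := fun c => ⟨fun v => c v, fun a b h => by
        by_contra hab
        exact c.valid (show (⊤ : SimpleGraph V).Adj a b from hab) h⟩
      invFun := fun f => SimpleGraph.Coloring.mk f (fun {a b} h h' => h (f.injective h'))
      left_inv := fun f => rfl
      right_inv := fun c => rfl }
  rw [Nat.card_congr e, Nat.card_eq_fintype_card, Fintype.card_embedding_eq, Fintype.card_fin]

lemma conj_root {p : ℤ[X]} {z : ℂ} (h : aeval z p = 0) :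
    aeval ((starRingEnd ℂ) z) p = 0 := by
  have h1 := Polynomial.hom_eval₂ p (algebraMap ℤ ℂ) (starRingEnd ℂ) z
  have h2 : (starRingEnd ℂ).comp (algebraMap ℤ ℂ) = algebraMap ℤ ℂ := RingHom.ext_int _ _
  rw [h2] at h1
  rw [aeval_def] at h ⊢
  rw [← h1, h, map_zero]

/-- **Brown's conjecture on the real parts of chromatic roots.** -/
theorem result :
    -- the chromatic polynomial exists and is unique
    (∀ (V : Type u) [Fintype V] (G : SimpleGraph V), ∃! p : ℤ[X], IsChromaticPolynomial G p) ∧
    ∀ n : ℕ, 1 ≤ n → ∀ (V : Type u) [Fintype V], Fintype.card V = n →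
      -- the chromatic roots of the complete graph on `n` vertices are `0, 1, ..., n - 1`
      (∀ z : ℂ, IsChromaticRoot (⊤ : SimpleGraph V) z ↔ ∃ i : ℕ, i < n ∧ z = i) ∧
      -- every chromatic root of any other graph on `n` vertices has real part less than `n - 1`
      ∀ G : SimpleGraph V, ¬ Nonempty (G ≃g (⊤ : SimpleGraph (Fin n))) →
        ∀ z : ℂ, IsChromaticRoot G z → z.re < n - 1 := by
  classical
  refine ⟨?_, ?_⟩
  · intro V _ G
    exact ⟨pol G Finset.univ, isChromaticPolynomial_pol G,
      fun p hp => unique_pol hp (isChromaticPolynomial_pol G)⟩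
  · intro n hn V _ hV
    constructor
    · intro z
      have key : aeval z (descPochhammer ℤ n) = ∏ j ∈ Finset.range n, (z - j) := by
        rw [← descPochhammer_eval_eq_prod_range, aeval_def, ← eval_map]
        congr 1
        exact descPochhammer_map (algebraMap ℤ ℂ) n
      constructor
      · rintro ⟨p, hp, hz⟩
        rw [unique_pol hp isChromaticPolynomial_top, hV, key, Finset.prod_eq_zero_iff] at hz
        obtain ⟨i, hi, hz⟩ := hz
        exact ⟨i, Finset.mem_range.1 hi, sub_eq_zero.1 hz⟩
      · rintro ⟨i, hi, hz⟩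
        refine ⟨_, isChromaticPolynomial_top, ?_⟩
        rw [hV, key, Finset.prod_eq_zero_iff]
        exact ⟨i, Finset.mem_range.2 hi, sub_eq_zero.2 hz⟩
    · intro G hG z hz
      have hGtop : G ≠ ⊤ := by
        rintro rfl
        apply hG
        exact ⟨⟨Fintype.equivFinOfCardEq hV, by simp⟩⟩
      obtain ⟨x, y, hxy, hadj⟩ : ∃ x y : V, x ≠ y ∧ ¬ G.Adj x y := by
        by_contra hcon
        push Not at hcon
        apply hGtop
        ext x y
        exact ⟨fun h => h.ne, fun h => hcon x y h⟩
      obtain ⟨p, hp, hz⟩ := hz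
      rw [unique_pol hp (isChromaticPolynomial_pol G)] at hz
      by_contra hcon
      push Not at hcon
      have hcard : ((Finset.univ : Finset V).card : ℝ) - 1 ≤ z.re := by
        rw [Finset.card_univ, hV]
        exact hcon
      rcases le_or_gt 0 z.im with him | him
      · exact P_ne_zero G Finset.univ x y (Finset.mem_univ _) (Finset.mem_univ _) hxy hadj z
          hcard him hz
      · refine P_ne_zero G Finset.univ x y (Finset.mem_univ _) (Finset.mem_univ _) hxy hadj
          ((starRingEnd ℂ) z) ?_ ?_ (conj_root hz)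
        · rw [Complex.conj_re]
          exact hcard
        · rw [Complex.conj_im]
          linarith

end Pool.Agent.Results.MP_1e1ce6_co.BrownRealPart
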